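import Pool.Agent.Helper31.LQ.Goals

open MeasureTheory Set
open scoped ENNReal Matrix

noncomputable section

namespace Pool.Agent.Helper94.LQ

open Pool.Agent.Helper31.LQ Pool.Agent.Helper47.AQ

namespace Ball

variable {n d : ℕ}

/-- The matrix of `lin Y`. -/
def mA (Y : Fin n → Fin d → ℝ) : Matrix (Fin d) (Fin n) ℝ := Matrix.of fun a l => Y l a

theorem lin_eq (Y : Fin n → Fin d → ℝ) (x : Fin n → ℝ) : lin Y x = mA Y *ᵥ x := by
  funext c
  simp only [lin, mA, Matrix.mulVec, dotProduct, Matrix.of_apply]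
  exact Finset.sum_congr rfl fun l _ => mul_comm _ _

theorem grm_one (Y : Fin n → Fin d → ℝ) : grm 1 Y = mA Y * (mA Y)ᵀ := by
  ext a b
  simp only [grm, mA, Matrix.of_apply, Matrix.mul_apply, Matrix.transpose_apply]
  refine Finset.sum_congr rfl fun l _ => ?_
  rw [Finset.sum_eq_single l]
  · simp
  · intro m _ hm
    rw [Matrix.one_apply_ne hm.symm]
    simp
  · simp

/-- The preimage vector. -/
theorem exists_pre (Y : Fin n → Fin d → ℝ) (R : Matrix (Fin d) (Fin d) ℝ)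
    (hR : grm 1 Y = R * Rᵀ) (hdet : R.det ≠ 0) (w : Fin d → ℝ) :
    ∃ x : Fin n → ℝ, lin Y x = R *ᵥ w ∧ x ⬝ᵥ x = w ⬝ᵥ w := by
  have hu : IsUnit R.det := isUnit_iff_ne_zero.2 hdet
  have hut : IsUnit Rᵀ.det := by rw [Matrix.det_transpose]; exact hu
  refine ⟨((mA Y)ᵀ * (Rᵀ)⁻¹) *ᵥ w, ?_, ?_⟩
  · rw [lin_eq, Matrix.mulVec_mulVec, ← Matrix.mul_assoc, ← grm_one, hR, Matrix.mul_assoc,
      Matrix.mul_nonsing_inv _ hut, Matrix.mul_one]
  · rw [Matrix.dotProduct_mulVec, ← Matrix.mulVec_transpose, Matrix.mulVec_mulVec]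
    have h1 : ((mA Y)ᵀ * (Rᵀ)⁻¹)ᵀ * ((mA Y)ᵀ * (Rᵀ)⁻¹) = 1 := by
      rw [Matrix.transpose_mul, Matrix.transpose_transpose, Matrix.mul_assoc,
        ← Matrix.mul_assoc (mA Y), ← grm_one, hR, Matrix.mul_assoc R,
        Matrix.mul_nonsing_inv _ hut, Matrix.mul_one, Matrix.transpose_nonsing_inv,
        Matrix.transpose_transpose, Matrix.nonsing_inv_mul _ hu]
    rw [h1, Matrix.one_mulVec]

end Ball

open Ball in
theorem gBALL (hGRM : GRM) : BALL := by
  intro n d K hK
  obtain ⟨x₀, hx₀⟩ := hK.int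
  obtain ⟨r, hr, hball⟩ := Metric.isOpen_iff.1 isOpen_interior x₀ hx₀
  set ρ : ℝ := r / 2 / (d + 1) with hρ
  have hρ0 : 0 < ρ := by positivity
  refine ⟨(2 * ρ) ^ d, by positivity, fun Y => ?_⟩
  obtain ⟨⟨R, hR, hsq⟩, -⟩ := hGRM n d 1 Matrix.PosDef.one Y
  by_cases hdet : R.det = 0
  · rw [hsq, hdet]
    simp
  have hsub : (fun z => lin Y x₀ + z) '' (Matrix.toLin' R '' Metric.closedBall (0 : Fin d → ℝ) ρ)
      ⊆ lin Y '' K := by
    rintro _ ⟨_, ⟨w, hw, rfl⟩, rfl⟩
    obtain ⟨x, hx, hxx⟩ := exists_pre Y R hR hdet w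
    refine ⟨x₀ + x, interior_subset (hball ?_), ?_⟩
    · rw [Metric.mem_ball, dist_eq_norm, add_sub_cancel_left, pi_norm_lt_iff hr]
      intro l
      have hw' : ∀ a, |w a| ≤ ρ := by
        intro a
        have := (pi_norm_le_iff_of_nonneg hρ0.le).1 (mem_closedBall_zero_iff.1 hw) a
        simpa using this
      have h1 : x l ^ 2 ≤ x ⬝ᵥ x := by
        simp only [dotProduct]
        have := Finset.single_le_sum (f := fun i => x i * x i) (fun i _ => mul_self_nonneg (x i))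
          (Finset.mem_univ l)
        nlinarith
      have h2 : w ⬝ᵥ w ≤ d * ρ ^ 2 := by
        simp only [dotProduct]
        have : ∑ i, w i * w i ≤ ∑ _i : Fin d, ρ ^ 2 := by
          refine Finset.sum_le_sum fun i _ => ?_
          have h3 := hw' i
          have h4 := abs_mul_abs_self (w i)
          nlinarith [abs_nonneg (w i)]
        simpa using this
      have h3 : (d : ℝ) * ρ ^ 2 ≤ (r / 2) ^ 2 := by
        have h4 : r / 2 = ρ * (d + 1) := by rw [hρ]; field_simp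
        rw [h4]
        have h5 : (0 : ℝ) ≤ d := Nat.cast_nonneg d
        nlinarith [sq_nonneg ρ, mul_nonneg h5 (sq_nonneg ρ)]
      have h4 : x l ^ 2 ≤ (r / 2) ^ 2 := by
        rw [hxx] at h1
        linarith
      rw [Real.norm_eq_abs]
      have h5 := abs_le_of_sq_le_sq h4 (by positivity)
      linarith
    · show lin Y (x₀ + x) = lin Y x₀ + Matrix.toLin' R w
      rw [Matrix.toLin'_apply, ← hx, lin_eq, lin_eq, lin_eq, Matrix.mulVec_add]
  refine le_trans (le_of_eq ?_) (measure_mono hsub)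
  rw [Set.image_add_left, measure_preimage_add, Measure.addHaar_image_linearMap,
    LinearMap.det_toLin', Real.volume_pi_closedBall _ hρ0.le, Fintype.card_fin, hsq,
    ← ENNReal.ofReal_mul (abs_nonneg _), mul_comm]

end Pool.Agent.Helper94.LQ
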