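import Pool.Agent.Helper31.LQ.Goals

open MeasureTheory Set
open scoped ENNReal Matrix

noncomputable section

namespace Pool.Agent.Helper94.LQ

open Pool.Agent.Helper31.LQ

namespace Chain

variable {n : ℕ}

/-- `emb` as a linear map. -/
def embL (m : ℕ) (π : Equiv.Perm (Fin (n + 1))) : (Fin m → ℝ) →ₗ[ℝ] (Fin (n + 1) → ℝ) where
  toFun := emb m π
  map_add' s t := by
    funext o
    simp only [emb, Pi.add_apply]
    split_ifs <;> simp
  map_smul' c s := by
    funext o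
    simp only [emb, Pi.smul_apply, RingHom.id_apply, smul_eq_mul]
    split_ifs <;> simp

theorem embL_apply (m : ℕ) (π : Equiv.Perm (Fin (n + 1))) (s : Fin m → ℝ) :
    embL m π s = emb m π s := rfl

/-- The map in `sh` as a linear map. -/
def shL (σ : ℝ) (j : Fin (n + 1)) : (Fin (n + 1) → ℝ) →ₗ[ℝ] (Fin (n + 1) → ℝ) where
  toFun t := t - (σ * ∑ o, t o) • (Pi.single j 1 : Fin (n + 1) → ℝ)
  map_add' s t := by
    simp only [Pi.add_apply, Finset.sum_add_distrib, mul_add, add_smul]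
    abel
  map_smul' c s := by
    simp only [Pi.smul_apply, RingHom.id_apply, smul_eq_mul, ← Finset.mul_sum, smul_sub, smul_smul]
    congr 2
    ring

theorem sl_comp {m m' : ℕ} (L : (Fin m → ℝ) →ₗ[ℝ] (Fin m' → ℝ)) {P : (Fin m' → ℝ) → ℝ}
    (h : SL m' P) : SL m (fun s => P (L s)) where
  cont := h.cont.comp L.continuous_of_finiteDimensional
  nn t := h.nn _
  add s t := by
    rw [map_add]
    exact h.add _ _
  hom c hc t := by
    rw [map_smul]
    exact h.hom c hc _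

theorem sl_emb (m : ℕ) (π : Equiv.Perm (Fin (n + 1))) {P : (Fin (n + 1) → ℝ) → ℝ}
    (h : SL (n + 1) P) : SL m (fun s => P (emb m π s)) := sl_comp (embL m π) h

theorem sl_sh (σ : ℝ) (j : Fin (n + 1)) {P : (Fin (n + 1) → ℝ) → ℝ}
    (h : SL (n + 1) P) : SL (n + 1) (sh σ j P) := sl_comp (shL σ j) h

/-- The value of `emb` on a constant vector. -/
theorem emb_const (π : Equiv.Perm (Fin (n + 1))) (r : ℝ) :
    emb n π (fun _ => r) = (r • -(Pi.single (π (Fin.last n)) 1 : Fin (n + 1) → ℝ)) + fun _ => r := by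
  funext o
  simp only [emb, Pi.add_apply, Pi.smul_apply, Pi.neg_apply, smul_eq_mul]
  by_cases h : o = π (Fin.last n)
  · subst h
    simp
  · have h1 : (π.symm o).val < n := by
      have h2 : π.symm o ≠ Fin.last n := fun hh => h (by rw [← hh]; simp)
      have h3 := Fin.val_ne_of_ne h2
      have h4 := (π.symm o).isLt
      simp only [Fin.val_last] at h3
      omega
    rw [dif_pos h1, Pi.single_eq_of_ne h]
    simp

/-- The sum of the coordinates. -/
theorem sum_emb (π : Equiv.Perm (Fin (n + 1))) (s : Fin n → ℝ) :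
    ∑ o, emb n π s o = ∑ a, s a := by
  rw [← Equiv.sum_comp π (fun o => emb n π s o), Fin.sum_univ_castSucc]
  simp [emb]

theorem sum_insertNth {m : ℕ} (a : Fin (m + 1)) (s : Fin m → ℝ) :
    ∑ b, (a.insertNth (α := fun _ => ℝ) 0 s : Fin (m + 1) → ℝ) b = ∑ b, s b := by
  rw [Fin.sum_univ_succAbove _ a]
  simp

theorem step3 (hX3 : X3) (hX7 : X7) (m : ℕ) (hm : m + 1 ≤ n)
    (Q : Fin (n + 1) → (Fin (n + 1) → ℝ) → ℝ) (hQ : ∀ j, SL (n + 1) (Q j)) :
    (m : ℝ) * Sm (m + 1) Q ≤ ((m : ℝ) + 1) * Sm m Q := by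
  have h1 : ∀ π : Equiv.Perm (Fin (n + 1)),
      (m : ℝ) * EP (m + 1) π (Q (π (Fin.last n))) ≤
      ∑ a : Fin (m + 1), (Ex m fun s => Q (π (Fin.last n))
        (emb (m + 1) π (a.insertNth (α := fun _ => ℝ) 0 s))) := fun π =>
    hX3 m (fun t => Q (π (Fin.last n)) (emb (m + 1) π t)) (sl_emb (m + 1) π (hQ _))
  have h2 := Finset.sum_le_sum fun (π : Equiv.Perm (Fin (n + 1))) (_ : π ∈ Finset.univ) => h1 π
  rw [hX7 n m hm Q, ← Finset.mul_sum] at h2
  simp only [Sm]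
  rw [← mul_div_assoc, ← mul_div_assoc]
  exact div_le_div_of_nonneg_right h2 (by positivity)

theorem chain3 (hX3 : X3) (hX7 : X7) (d : ℕ) (hd : 1 ≤ d) (k : ℕ) (hk : d + k ≤ n)
    (Q : Fin (n + 1) → (Fin (n + 1) → ℝ) → ℝ) (hQ : ∀ j, SL (n + 1) (Q j)) :
    (d : ℝ) * Sm (d + k) Q ≤ ((d + k : ℕ) : ℝ) * Sm d Q := by
  induction k with
  | zero => simp
  | succ k ih =>
    have h1 := ih (by omega)
    have h2 := step3 hX3 hX7 (d + k) (by omega) Q hQ
    have h3 : (0 : ℝ) < ((d + k : ℕ) : ℝ) := by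
      have : 0 < d + k := by omega
      exact_mod_cast this
    have h4 : ((d + k : ℕ) : ℝ) * ((d : ℝ) * Sm (d + (k + 1)) Q)
        ≤ ((d + k : ℕ) : ℝ) * (((d + (k + 1) : ℕ) : ℝ) * Sm d Q) := by
      have h5 : (d : ℝ) * (((d + k : ℕ) : ℝ) * Sm (d + k + 1) Q)
          ≤ (d : ℝ) * ((((d + k : ℕ) : ℝ) + 1) * Sm (d + k) Q) :=
        mul_le_mul_of_nonneg_left h2 (by positivity)
      have h6 : ((((d + k : ℕ) : ℝ) + 1)) * ((d : ℝ) * Sm (d + k) Q)
          ≤ ((((d + k : ℕ) : ℝ) + 1)) * (((d + k : ℕ) : ℝ) * Sm d Q) :=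
        mul_le_mul_of_nonneg_left h1 (by positivity)
      have h7 : ((d + (k + 1) : ℕ) : ℝ) = ((d + k : ℕ) : ℝ) + 1 := by push_cast; ring
      rw [h7]
      have h8 : d + (k + 1) = d + k + 1 := by ring
      rw [h8]
      linarith
    exact le_of_mul_le_mul_left h4 h3

theorem step4 (hX7 : X7) (k : ℕ) (C : ℝ) (σ : ℝ)
    (hX4 : ∀ P : (Fin (k + 1) → ℝ) → ℝ, SL (k + 1) P → P (fun _ => 1) = 0 →
      ((k : ℝ) + 1) * Ex (k + 1) P ≤
      (∑ a : Fin (k + 1), Ex k fun s =>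
        P (a.insertNth (α := fun _ => ℝ) 0 s + fun _ => σ * ∑ b, s b)) +
      C * σ * ∑ a : Fin (k + 1), Ex k fun s => P (a.insertNth (α := fun _ => ℝ) 0 s))
    (P : Fin (k + 1 + 1) → (Fin (k + 1 + 1) → ℝ) → ℝ) (hP : Fam (k + 1) P) :
    Sm (k + 1) P ≤ Sm k (fun j => sh σ j (P j)) + C * σ * Sm k P := by
  have h1 : ∀ π : Equiv.Perm (Fin (k + 1 + 1)),
      ((k : ℝ) + 1) * EP (k + 1) π (P (π (Fin.last (k + 1)))) ≤
      (∑ a : Fin (k + 1), (Ex k fun s => sh σ (π (Fin.last (k + 1))) (P (π (Fin.last (k + 1))))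
        (emb (k + 1) π (a.insertNth (α := fun _ => ℝ) 0 s)))) +
      C * σ * ∑ a : Fin (k + 1), (Ex k fun s => P (π (Fin.last (k + 1)))
        (emb (k + 1) π (a.insertNth (α := fun _ => ℝ) 0 s))) := by
    intro π
    have h := hX4 (fun t => P (π (Fin.last (k + 1))) (emb (k + 1) π t))
      (sl_emb (k + 1) π (hP.sl _)) (by
        show P (π (Fin.last (k + 1))) (emb (k + 1) π (fun _ => 1)) = 0
        rw [emb_const, hP.inv, one_smul]
        exact hP.zero _)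
    refine le_trans h (le_of_eq ?_)
    congr 1
    refine Finset.sum_congr rfl fun a _ => ?_
    congr 1
    funext s
    show P (π (Fin.last (k + 1))) (emb (k + 1) π ((a.insertNth (α := fun _ => ℝ) 0 s)
      + fun _ => σ * ∑ b, s b)) = P (π (Fin.last (k + 1)))
        (emb (k + 1) π (a.insertNth (α := fun _ => ℝ) 0 s) -
          (σ * ∑ o, emb (k + 1) π (a.insertNth (α := fun _ => ℝ) 0 s) o) •
            (Pi.single (π (Fin.last (k + 1))) 1 : Fin (k + 1 + 1) → ℝ))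
    rw [← embL_apply, map_add, embL_apply, embL_apply, emb_const, ← add_assoc, hP.inv, sum_emb,
      sum_insertNth, smul_neg, ← sub_eq_add_neg]
  have h2 := Finset.sum_le_sum fun (π : Equiv.Perm (Fin (k + 1 + 1))) (_ : π ∈ Finset.univ) => h1 π
  rw [Finset.sum_add_distrib, ← Finset.mul_sum, ← Finset.mul_sum,
    hX7 (k + 1) k le_rfl (fun j => sh σ j (P j)), hX7 (k + 1) k le_rfl P] at h2
  simp only [Sm]
  rw [← mul_div_assoc, ← add_div]
  refine div_le_div_of_nonneg_right ?_ (by positivity)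
  have h3 : (0 : ℝ) < (k : ℝ) + 1 := by positivity
  refine le_of_mul_le_mul_left (le_trans h2 (le_of_eq ?_)) h3
  ring

end Chain

open Chain in
theorem gCHAIN (hX3 : X3) (hX4 : X4) (hX7 : X7) : CHAIN := by
  intro n d hd hdn
  obtain ⟨k, rfl⟩ : ∃ k, n = k + 1 := ⟨n - 1, by omega⟩
  obtain ⟨C, hC, h4⟩ := hX4 k
  refine ⟨C, hC, fun σ hσ P hP => ?_⟩
  have h1 := step4 hX7 k C σ (h4 σ hσ) P hP
  obtain ⟨e, rfl⟩ : ∃ e, k = d + e := ⟨k - d, by omega⟩
  have h2 := chain3 (n := d + e + 1) hX3 hX7 d hd e (by omega) (fun j => sh σ j (P j))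
    (fun j => sl_sh σ j (hP.sl j))
  have h3 := chain3 (n := d + e + 1) hX3 hX7 d hd e (by omega) P hP.sl
  have h5 : (d : ℝ) * Sm (d + e + 1) P ≤
      (d : ℝ) * (Sm (d + e) (fun j => sh σ j (P j)) + C * σ * Sm (d + e) P) :=
    mul_le_mul_of_nonneg_left h1 (by positivity)
  have h6 : C * σ * ((d : ℝ) * Sm (d + e) P) ≤ C * σ * (((d + e : ℕ) : ℝ) * Sm d P) :=
    mul_le_mul_of_nonneg_left h3 (by positivity)
  have h7 : (((d + e + 1 : ℕ) : ℝ) - 1) = ((d + e : ℕ) : ℝ) := by push_cast; ring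
  rw [h7]
  linarith

end Pool.Agent.Helper94.LQ
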