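import Pool.Agent.Helper31.LQ.Goals

open MeasureTheory Set
open scoped ENNReal Matrix

noncomputable section

namespace Pool.Agent.Helper94.LQ

open Pool.Agent.Helper31.LQ

namespace Sth

variable {n : ℕ}

/-- For `b < n` the number `π (castSucc b)` is not `π last`, hence `succAbove` of something. -/
theorem exists_rho (π : Equiv.Perm (Fin (n + 1))) : ∃ ρ : Equiv.Perm (Fin n),
    ∀ b : Fin n, (π (Fin.last n)).succAbove b = π ((ρ b).castSucc) := by
  have h1 : ∀ b : Fin n, ∃ c : Fin n, c.castSucc = π.symm ((π (Fin.last n)).succAbove b) := by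
    intro b
    rw [Fin.exists_castSucc_eq]
    intro h
    have h2 : (π (Fin.last n)).succAbove b = π (Fin.last n) :=
      (Equiv.apply_symm_apply π _).symm.trans (congrArg π h)
    exact Fin.succAbove_ne _ _ h2
  choose f hf using h1
  have hinj : Function.Injective f := by
    intro b c hbc
    have h2 := (hf b).symm.trans ((congrArg Fin.castSucc hbc).trans (hf c))
    exact Fin.succAbove_right_injective (π.symm.injective h2)
  refine ⟨Equiv.ofBijective f ⟨hinj, Finite.injective_iff_surjective.1 hinj⟩, fun b => ?_⟩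
  show _ = π ((f b).castSucc)
  rw [hf b, Equiv.apply_symm_apply]

theorem emb_eq (π : Equiv.Perm (Fin (n + 1))) (ρ : Equiv.Perm (Fin n))
    (hρ : ∀ b : Fin n, (π (Fin.last n)).succAbove b = π ((ρ b).castSucc)) (s : Fin n → ℝ) :
    emb n π s = (π (Fin.last n)).insertNth (α := fun _ => ℝ) 0 (fun b => s (ρ b)) := by
  symm
  rw [Fin.insertNth_eq_iff]
  constructor
  · simp [emb]
  · funext b
    show s (ρ b) = emb n π s ((π (Fin.last n)).succAbove b)
    rw [hρ b]
    simp [emb]

theorem ep_eq (hXP : XP) (π : Equiv.Perm (Fin (n + 1))) (P : (Fin (n + 1) → ℝ) → ℝ) :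
    EP n π P = Th (π (Fin.last n)) P := by
  obtain ⟨ρ, hρ⟩ := exists_rho π
  show (Ex n fun s => P (emb n π s)) = Ex n fun s =>
    P ((π (Fin.last n)).insertNth (α := fun _ => ℝ) 0 s)
  rw [← hXP n ρ (fun s => P ((π (Fin.last n)).insertNth (α := fun _ => ℝ) 0 s))]
  congr 1
  funext s
  rw [emb_eq π ρ hρ s]

theorem card_last (j : Fin (n + 1)) :
    (Finset.univ.filter fun π : Equiv.Perm (Fin (n + 1)) => π (Fin.last n) = j).card
      = n.factorial := by
  have h1 : ∀ i j : Fin (n + 1),
      (Finset.univ.filter fun π : Equiv.Perm (Fin (n + 1)) => π (Fin.last n) = i).card ≤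
      (Finset.univ.filter fun π : Equiv.Perm (Fin (n + 1)) => π (Fin.last n) = j).card := by
    intro i j
    refine Finset.card_le_card_of_injOn (fun π => Equiv.swap i j * π) ?_ ?_
    · intro π hπ
      simp only [Finset.coe_filter, Finset.mem_univ, true_and, Set.mem_setOf_eq] at hπ ⊢
      rw [Equiv.Perm.mul_apply, hπ, Equiv.swap_apply_left]
    · intro a _ b _ hab
      exact mul_left_cancel hab
  have h2 : ∀ i, (Finset.univ.filter fun π : Equiv.Perm (Fin (n + 1)) => π (Fin.last n) = i).card
      = (Finset.univ.filter fun π : Equiv.Perm (Fin (n + 1)) => π (Fin.last n) = j).card :=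
    fun i => le_antisymm (h1 i j) (h1 j i)
  have h3 := Finset.card_eq_sum_card_fiberwise (s := (Finset.univ : Finset (Equiv.Perm (Fin (n + 1)))))
    (t := (Finset.univ : Finset (Fin (n + 1)))) (f := fun π => π (Fin.last n))
    (fun _ _ => Finset.mem_coe.2 (Finset.mem_univ _))
  rw [Finset.sum_congr rfl fun i _ => h2 i, Finset.sum_const, Finset.card_univ, Fintype.card_perm,
    Finset.card_univ, Fintype.card_fin, Nat.factorial_succ, smul_eq_mul] at h3
  exact (Nat.eq_of_mul_eq_mul_left (Nat.succ_pos n) h3).symm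

end Sth

open Sth in
theorem gSTH (hXP : XP) : STH := by
  intro n
  refine ⟨fun π P => ep_eq hXP π P, fun P => ?_⟩
  have h1 : ∑ π : Equiv.Perm (Fin (n + 1)), EP n π (P (π (Fin.last n)))
      = (n.factorial : ℝ) * ∑ j, Th j (P j) := by
    rw [← Finset.sum_fiberwise Finset.univ (fun π : Equiv.Perm (Fin (n + 1)) => π (Fin.last n)),
      Finset.mul_sum]
    refine Finset.sum_congr rfl fun j _ => ?_
    rw [Finset.sum_congr rfl (g := fun _ => Th j (P j)) fun π hπ => by
      rw [ep_eq hXP, (Finset.mem_filter.1 hπ).2]]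
    rw [Finset.sum_const, card_last, nsmul_eq_mul]
  show (∑ π : Equiv.Perm (Fin (n + 1)), EP n π (P (π (Fin.last n)))) / (n + 1).factorial = _
  rw [h1, Nat.factorial_succ]
  have h2 : (n.factorial : ℝ) ≠ 0 := by positivity
  have h3 : ((n : ℝ) + 1) ≠ 0 := by positivity
  push_cast
  field_simp

end Pool.Agent.Helper94.LQ
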